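import Pool.Agent.R751.MassF

set_option autoImplicit false
open MeasureTheory Set Module Filter Topology Metric

namespace Pool.Agent.Results.MP_77d991_gt.GromovMassMax

open Pool.Agent.R751.Mass Pool.Agent.Helper481.RH

/-- an `o`-symmetric convex body in `ℝ^d`: compact, convex, with nonempty interior, `M = -M` -/
structure SymmBody {d : ℕ} (M : Set (EuclideanSpace ℝ (Fin d))) : Prop where
  compact : IsCompact M
  convex : Convex ℝ M
  interior_nonempty : (interior M).Nonempty
  symm : ∀ x ∈ M, -x ∈ M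

/-- the cross-polytope `conv {±v_1, …, ±v_d}` -/
def cross {d : ℕ} (v : Fin d → EuclideanSpace ℝ (Fin d)) : Set (EuclideanSpace ℝ (Fin d)) :=
  convexHull ℝ (Set.range v ∪ Set.range (fun i => -v i))

/-- the volumes of the cross-polytopes inscribed in `M` -/
def crossVolumes {d : ℕ} (M : Set (EuclideanSpace ℝ (Fin d))) : Set ℝ :=
  {t | ∃ v : Fin d → EuclideanSpace ℝ (Fin d), LinearIndependent ℝ v ∧ (∀ i, v i ∈ M) ∧
    t = (volume (cross v)).toReal}

/-- Gromov's mass `vol^m_M(M)` of the unit ball `M` -/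
noncomputable def gromovMass {d : ℕ} (M : Set (EuclideanSpace ℝ (Fin d))) : ℝ :=
  2 ^ d / (Nat.factorial d : ℝ) * ((volume M).toReal / sSup (crossVolumes M))

/-- an ellipsoid centred at the origin: a linear image of the Euclidean unit ball -/
def IsEllipsoid {d : ℕ} (M : Set (EuclideanSpace ℝ (Fin d))) : Prop :=
  ∃ T : EuclideanSpace ℝ (Fin d) ≃ₗ[ℝ] EuclideanSpace ℝ (Fin d),
    M = T '' closedBall (0 : EuclideanSpace ℝ (Fin d)) 1

/-- the volume of the Euclidean unit ball of `ℝ^d` -/
noncomputable def ballVolume (d : ℕ) : ℝ :=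
  Real.sqrt Real.pi ^ d / Real.Gamma ((d : ℝ) / 2 + 1)

lemma ballVolume_eq (d : ℕ) [Nonempty (Fin d)] : (kap d).toReal = ballVolume d := by
  unfold kap ballVolume
  rw [EuclideanSpace.volume_closedBall]
  simp only [ENNReal.ofReal_one, one_pow, one_mul, Fintype.card_fin]
  rw [ENNReal.toReal_ofReal]
  have : 0 < Real.Gamma ((d : ℝ) / 2 + 1) := Real.Gamma_pos_of_pos (by positivity)
  positivity

variable {m : ℕ}

lemma factor_pos (m : ℕ) : (0 : ℝ) < 2 ^ (m + 1) / (Nat.factorial (m + 1) : ℝ) := by positivity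

lemma isGreatest_cross {M : Set (EuclideanSpace ℝ (Fin (m + 1)))}
    {v : Fin (m + 1) → EuclideanSpace ℝ (Fin (m + 1))} (hv : ∀ i, v i ∈ M) (h0 : 0 < |detc v|)
    (hD : DetLe M |detc v|) :
    IsGreatest (crossVolumes M) (2 ^ (m + 1) / (Nat.factorial (m + 1) : ℝ) * |detc v|) := by
  constructor
  · refine ⟨v, (detc_ne_zero_iff v).1 (abs_pos.1 h0), hv, ?_⟩
    exact (volume_cross v).symm
  · rintro _ ⟨w, -, hw, rfl⟩
    have := volume_cross w
    unfold cross
    rw [this]
    exact mul_le_mul_of_nonneg_left (hD w hw) (factor_pos m).le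

lemma gromovMass_eq {M : Set (EuclideanSpace ℝ (Fin (m + 1)))}
    {v : Fin (m + 1) → EuclideanSpace ℝ (Fin (m + 1))} (hv : ∀ i, v i ∈ M) (h0 : 0 < |detc v|)
    (hD : DetLe M |detc v|) : gromovMass M = (volume M).toReal / |detc v| := by
  unfold gromovMass
  rw [(isGreatest_cross hv h0 hD).csSup_eq]
  have := factor_pos m
  field_simp

lemma kap_ne_top (n : ℕ) : kap n ≠ ⊤ := (isCompact_closedBall _ _).measure_lt_top.ne

lemma mass_le {M : Set (EuclideanSpace ℝ (Fin (m + 1)))} (hM : SymmBody M) :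
    gromovMass M ≤ (kap (m + 1)).toReal := by
  obtain ⟨v, hv, h0, hD⟩ := exists_maxdet hM.compact hM.convex hM.symm hM.interior_nonempty
  rw [gromovMass_eq hv h0 hD, div_le_iff₀ h0]
  have h1 := volume_le hM.compact hM.convex hD
  have h2 := ENNReal.toReal_mono (ENNReal.mul_ne_top ENNReal.ofReal_ne_top (kap_ne_top _)) h1
  rw [ENNReal.toReal_mul, ENNReal.toReal_ofReal (abs_nonneg _)] at h2
  linarith

lemma symmBody_ellipsoid {M : Set (EuclideanSpace ℝ (Fin (m + 1)))} (hM : IsEllipsoid M) :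
    SymmBody M := by
  obtain ⟨T, rfl⟩ := hM
  have hcont : Continuous T := T.toLinearMap.continuous_of_finiteDimensional
  refine ⟨(isCompact_closedBall _ _).image hcont,
    (convex_closedBall _ _).linear_image T.toLinearMap, ?_, ?_⟩
  · have h1 : (interior (closedBall (0 : EuclideanSpace ℝ (Fin (m + 1))) 1)).Nonempty :=
      ⟨0, mem_interior_iff_mem_nhds.2 (closedBall_mem_nhds _ one_pos)⟩
    have h2 := T.toContinuousLinearEquiv.toHomeomorph.image_interior
      (closedBall (0 : EuclideanSpace ℝ (Fin (m + 1))) 1)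
    have h3 : T '' interior (closedBall (0 : EuclideanSpace ℝ (Fin (m + 1))) 1)
      = interior (T '' closedBall (0 : EuclideanSpace ℝ (Fin (m + 1))) 1) := h2
    rw [← h3]
    exact h1.image _
  · rintro _ ⟨x, hx, rfl⟩
    refine ⟨-x, ?_, by simp⟩
    rw [mem_closedBall_zero_iff] at hx ⊢
    rwa [norm_neg]

lemma mass_ellipsoid {M : Set (EuclideanSpace ℝ (Fin (m + 1)))} (hM : IsEllipsoid M) :
    gromovMass M = (kap (m + 1)).toReal := by
  have hS := symmBody_ellipsoid hM
  refine le_antisymm (mass_le hS) ?_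
  obtain ⟨v, hv, h0, hD⟩ := exists_maxdet hS.compact hS.convex hS.symm hS.interior_nonempty
  rw [gromovMass_eq hv h0 hD, le_div_iff₀ h0]
  obtain ⟨T, rfl⟩ := hM
  choose w hw hwv using hv
  have h1 : v = fun i => T.toLinearMap (w i) := by
    funext i; exact (hwv i).symm
  have h2 : |detc v| ≤ |LinearMap.det T.toLinearMap| := by
    rw [h1, detc_comp, abs_mul]
    have h3 : |detc w| ≤ 1 := by
      refine (abs_detc_le w).trans ?_
      refine Finset.prod_le_one (fun i _ => norm_nonneg _) fun i _ => ?_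
      have := hw i
      rwa [mem_closedBall_zero_iff] at this
    calc |LinearMap.det T.toLinearMap| * |detc w| ≤ |LinearMap.det T.toLinearMap| * 1 := by gcongr
      _ = _ := mul_one _
  have h4 : (volume (T '' closedBall (0 : EuclideanSpace ℝ (Fin (m + 1))) 1)).toReal
      = |LinearMap.det T.toLinearMap| * (kap (m + 1)).toReal := by
    have := Measure.addHaar_image_linearMap
      (volume : Measure (EuclideanSpace ℝ (Fin (m + 1)))) T.toLinearMap (closedBall 0 1)
    rw [show (T '' closedBall (0 : EuclideanSpace ℝ (Fin (m + 1))) 1)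
      = T.toLinearMap '' closedBall (0 : EuclideanSpace ℝ (Fin (m + 1))) 1 from rfl, this,
      ENNReal.toReal_mul, ENNReal.toReal_ofReal (abs_nonneg _)]
    rfl
  rw [h4, mul_comm]
  gcongr

lemma ellipsoid_of_mass (hm : 1 ≤ m) {M : Set (EuclideanSpace ℝ (Fin (m + 1)))} (hM : SymmBody M)
    (h : gromovMass M = (kap (m + 1)).toReal) : IsEllipsoid M := by
  obtain ⟨v, hv, h0, hD⟩ := exists_maxdet hM.compact hM.convex hM.symm hM.interior_nonempty
  rw [gromovMass_eq hv h0 hD, div_eq_iff h0.ne'] at h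
  have hV : ENNReal.ofReal |detc v| * kap (m + 1) ≤ volume M := by
    rw [← ENNReal.toReal_le_toReal (ENNReal.mul_ne_top ENNReal.ofReal_ne_top (kap_ne_top _))
      hM.compact.measure_lt_top.ne, ENNReal.toReal_mul, ENNReal.toReal_ofReal (abs_nonneg _), h]
    linarith
  have hP : DualPair M := fun x hx y hy hxy hxb hyb =>
    exists_dual hm hM.compact hM.convex hM.symm h0 hD hV hx hy hxy hxb hyb
  exact ellipsoid_of_dual hM.compact hM.convex hM.symm
    (mem_nhds_zero hM.convex hM.symm hM.interior_nonempty) hP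

/-- **Q1 of MP_77d991.** For every `d ≥ 2` (in particular for all `d ≥ 3`): a largest inscribed
cross-polytope exists for each `o`-symmetric convex body `M`; the largest value of Gromov's mass
`vol^m_M(M)` over all these bodies is the volume `π^{d/2} / Γ(d/2 + 1)` of the Euclidean unit
ball; and it is attained exactly by the ellipsoids. -/
theorem result (d : ℕ) (hd : 2 ≤ d) :
    (∀ M : Set (EuclideanSpace ℝ (Fin d)), SymmBody M →
      IsGreatest (crossVolumes M) (sSup (crossVolumes M)) ∧ 0 < sSup (crossVolumes M)) ∧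
    IsGreatest {t : ℝ | ∃ M : Set (EuclideanSpace ℝ (Fin d)), SymmBody M ∧ t = gromovMass M}
      (ballVolume d) ∧
    (∀ M : Set (EuclideanSpace ℝ (Fin d)), SymmBody M →
      (gromovMass M = ballVolume d ↔ IsEllipsoid M)) := by
  obtain ⟨m, rfl⟩ : ∃ m, d = m + 1 := ⟨d - 1, by omega⟩
  have hm : 1 ≤ m := by omega
  rw [← ballVolume_eq]
  refine ⟨fun M hM => ?_, ⟨⟨closedBall 0 1, ?_, ?_⟩, ?_⟩, fun M hM => ⟨?_, ?_⟩⟩
  · obtain ⟨v, hv, h0, hD⟩ := exists_maxdet hM.compact hM.convex hM.symm hM.interior_nonempty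
    have h1 := isGreatest_cross hv h0 hD
    rw [h1.csSup_eq]
    exact ⟨h1, mul_pos (factor_pos m) h0⟩
  · exact symmBody_ellipsoid ⟨LinearEquiv.refl ℝ _, (image_id _).symm⟩
  · exact (mass_ellipsoid ⟨LinearEquiv.refl ℝ _, (image_id _).symm⟩).symm
  · rintro _ ⟨M, hM, rfl⟩
    exact mass_le hM
  · exact ellipsoid_of_mass hm hM
  · exact mass_ellipsoid

end Pool.Agent.Results.MP_77d991_gt.GromovMassMax
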